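import Mathlib
import Pool.Agent.Lib.PosetForcing.Tools
import Pool.Agent.P.MP_31a5ad_lc.Defs
import Pool.Agent.Lib.PosetForcing.Cond

-- part Pool.Agent.P.MP_31a5ad_lc.Tree
section

set_option autoImplicit false

/-! The tree of injective countable sequences of naturals with coinfinite range. -/

namespace Pool.Agent.P.MP_31a5ad_lc

open Set

/-- the first uncountable well-order -/
abbrev W : Type := (Cardinal.aleph 1).ord.ToType

theorem W.countable_Iio (x : W) : (Iio x).Countable := by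
  have h := Cardinal.mk_Iio_toType_ord_lt x
  rw [← Cardinal.le_aleph0_iff_set_countable, ← Order.lt_succ_iff, Cardinal.succ_aleph0]
  exact h

theorem W.not_countable : ¬ (univ : Set W).Countable := by
  rw [← Cardinal.le_aleph0_iff_set_countable, Cardinal.mk_univ, Cardinal.mk_ord_toType, not_le]
  exact Cardinal.aleph0_lt_aleph_one

theorem W.countable_Iic (x : W) : (Iic x).Countable := by
  rw [← Iio_insert]
  exact (W.countable_Iio x).insert x

theorem W.exists_gt {S : Set W} (hS : S.Countable) : ∃ x, ∀ y ∈ S, y < x := by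
  by_contra h
  push Not at h
  refine W.not_countable ((hS.biUnion fun y _ => W.countable_Iic y).mono fun x _ => ?_)
  obtain ⟨y, hy, hxy⟩ := h x
  exact mem_biUnion hy hxy

theorem W.exists_notMem {S : Set W} (hS : S.Countable) : ∃ x, x ∉ S := by
  obtain ⟨x, hx⟩ := W.exists_gt hS
  exact ⟨x, fun h => lt_irrefl _ (hx x h)⟩

theorem W.exists_succ (x : W) : ∃ y, ∀ z, z < y ↔ z ≤ x := by
  obtain ⟨y, hy⟩ := W.exists_gt (countable_singleton x)
  obtain ⟨m, hm, hmin⟩ := wellFounded_lt.has_min {y | x < y} ⟨y, hy x rfl⟩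
  exact ⟨m, fun z => ⟨fun h => not_lt.1 fun h' => hmin z h' h, fun h => h.trans_lt hm⟩⟩

theorem W.exists_code : ∃ code : W → ℕ → Bool, Function.Injective code := by
  have : Cardinal.mk W ≤ Cardinal.mk (ℕ → Bool) := by
    rw [Cardinal.mk_ord_toType]
    simpa using Cardinal.aleph_one_le_continuum
  obtain ⟨e⟩ := this
  exact ⟨e, e.injective⟩

/-- nodes of the tree -/
@[ext]
structure Node : Type where
  /-- height -/
  ht : W
  /-- values -/
  f : W → ℕ
  zero : ∀ x, ht ≤ x → f x = 0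
  inj : InjOn f (Iio ht)
  coinf : (f '' Iio ht)ᶜ.Infinite

namespace Node

/-- strict end-extension -/
def Lt (s t : Node) : Prop := s.ht < t.ht ∧ ∀ x < s.ht, s.f x = t.f x

theorem Lt.trans {s t u : Node} (h : Lt s t) (h' : Lt t u) : Lt s u :=
  ⟨h.1.trans h'.1, fun x hx => (h.2 x hx).trans (h'.2 x (hx.trans h.1))⟩

theorem eq_of {s t : Node} (h : s.ht = t.ht) (h' : ∀ x < s.ht, s.f x = t.f x) : s = t := by
  refine Node.ext h (funext fun x => ?_)
  rcases lt_or_ge x s.ht with hx | hx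
  · exact h' x hx
  · rw [s.zero x hx, t.zero x (h ▸ hx)]

theorem tri {s t u : Node} (h : Lt s u) (h' : Lt t u) : Lt s t ∨ s = t ∨ Lt t s := by
  rcases lt_trichotomy s.ht t.ht with e | e | e
  · exact Or.inl ⟨e, fun x hx => (h.2 x hx).trans (h'.2 x (hx.trans e)).symm⟩
  · exact Or.inr (Or.inl (eq_of e fun x hx => (h.2 x hx).trans (h'.2 x (e ▸ hx)).symm))
  · exact Or.inr (Or.inr ⟨e, fun x hx => (h'.2 x hx).trans (h.2 x (hx.trans e)).symm⟩)

theorem exists_restr (t : Node) {a : W} (ha : a < t.ht) : ∃ s, Lt s t ∧ s.ht = a := by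
  refine ⟨⟨a, fun x => if x < a then t.f x else 0, fun x hx => if_neg (not_lt.2 hx), ?_, ?_⟩,
    ⟨ha, fun x hx => if_pos hx⟩, rfl⟩
  · intro x hx y hy h
    simp only [mem_Iio.1 hx, mem_Iio.1 hy, if_true] at h
    exact t.inj (lt_trans hx ha) (lt_trans hy ha) h
  · refine t.coinf.mono (compl_subset_compl.2 ?_)
    rintro _ ⟨x, hx, rfl⟩
    exact ⟨x, lt_trans hx ha, by simp [mem_Iio.1 hx]⟩

theorem exists_ht (a : W) : ∃ t : Node, t.ht = a := by
  classical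
  obtain ⟨g, hg⟩ := countable_iff_exists_injOn.1 (W.countable_Iio a)
  refine ⟨⟨a, fun x => if x < a then 2 * g x else 0, fun x hx => if_neg (not_lt.2 hx), ?_, ?_⟩, rfl⟩
  · intro x hx y hy h
    simp only [mem_Iio.1 hx, mem_Iio.1 hy, if_true] at h
    exact hg hx hy (by omega)
  · refine (infinite_range_of_injective (f := fun n : ℕ => 2 * n + 1)
      fun a b h => by simpa using h).mono ?_
    rintro _ ⟨n, rfl⟩ ⟨x, hx, h⟩
    simp only [mem_Iio.1 hx, if_true] at h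
    omega

/-- the range of `t` misses `F` -/
def Avoid (t : Node) (F : Finset ℕ) : Prop := ∀ x < t.ht, t.f x ∉ F

theorem exists_fresh (t : Node) (F : Finset ℕ) : ∃ n, n ∉ F ∧ ∀ x < t.ht, t.f x ≠ n := by
  obtain ⟨n, hn, hn'⟩ := t.coinf.exists_notMem_finset F
  exact ⟨n, hn', fun x hx h => hn ⟨x, hx, h⟩⟩

theorem exists_ext {t : Node} {F : Finset ℕ} (h : t.Avoid F) : ∃ u, Lt t u ∧ u.Avoid F := by
  obtain ⟨n, hn, hn'⟩ := t.exists_fresh F
  obtain ⟨y, hy⟩ := W.exists_succ t.ht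
  refine ⟨⟨y, fun x => if x = t.ht then n else t.f x, fun x hx => ?_, ?_, ?_⟩,
    ⟨(hy _).2 le_rfl, fun x hx => (if_neg hx.ne).symm⟩, fun x hx => ?_⟩
  · have h1 : t.ht < x := not_le.1 fun h => not_lt.2 hx ((hy x).2 h)
    simp only [h1.ne', if_false]
    exact t.zero x h1.le
  · intro a ha b hb e
    rcases ((hy a).1 ha).lt_or_eq with h1 | h1 <;> rcases ((hy b).1 hb).lt_or_eq with h2 | h2
    · simp only [h1.ne, h2.ne, if_false] at e
      exact t.inj h1 h2 e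
    · simp only [h1.ne, h2, if_false, if_true] at e
      exact absurd e (hn' a h1)
    · simp only [h1, h2.ne, if_false, if_true] at e
      exact absurd e.symm (hn' b h2)
    · exact h1.trans h2.symm
  · refine (t.coinf.sdiff (finite_singleton n)).mono ?_
    rintro m ⟨hm, hm'⟩ ⟨x, hx, e⟩
    rcases ((hy x).1 hx).lt_or_eq with h1 | h1
    · simp only [h1.ne, if_false] at e
      exact hm ⟨x, h1, e⟩
    · simp only [h1, if_true] at e
      exact hm' e.symm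
  · rcases ((hy x).1 hx).lt_or_eq with h1 | h1
    · simp only [h1.ne, if_false]
      exact h x h1
    · simp only [h1, if_true]
      exact hn

theorem exists_limit (t : ℕ → Node) (F : ℕ → Finset ℕ)
    (h1 : ∀ j, t j = t (j + 1) ∨ Lt (t j) (t (j + 1))) (h2 : ∀ j, F j ⊂ F (j + 1))
    (h3 : ∀ j, (t j).Avoid (F j)) (h4 : ∀ j, ∃ i, j ≤ i ∧ Lt (t i) (t (i + 1))) :
    ∃ u, ∀ j, Lt (t j) u ∧ u.Avoid (F j) := by
  classical
  have hle : ∀ i j, i ≤ j → t i = t j ∨ Lt (t i) (t j) := by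
    intro i j hij
    induction j, hij using Nat.le_induction with
    | base => exact Or.inl rfl
    | succ j _ ih =>
      rcases ih with ih | ih
      · rw [ih]; exact h1 j
      · rcases h1 j with h | h
        · rw [← h]; exact Or.inr ih
        · exact Or.inr (ih.trans h)
  have hagree : ∀ i j x, x < (t i).ht → x < (t j).ht → (t i).f x = (t j).f x := by
    intro i j x hi hj
    rcases le_total i j with h | h
    · rcases hle i j h with e | e
      · rw [e]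
      · exact e.2 x hi
    · rcases hle j i h with e | e
      · rw [e]
      · exact (e.2 x hj).symm
  have hmono : ∀ i j, i ≤ j → (t i).ht ≤ (t j).ht := by
    intro i j h
    rcases hle i j h with e | e
    · rw [e]
    · exact e.1.le
  have hF : StrictMono F := strictMono_nat_of_lt_succ h2
  obtain ⟨b0, hb0⟩ := W.exists_gt (countable_range fun j => (t j).ht)
  obtain ⟨b, hb, hmin⟩ := wellFounded_lt.has_min {x | ∀ j, (t j).ht ≤ x}
    ⟨b0, fun j => (hb0 _ ⟨j, rfl⟩).le⟩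
  have hex : ∀ x, x < b → ∃ j, x < (t j).ht := by
    intro x hx
    by_contra h
    push Not at h
    exact hmin x h hx
  let g : W → ℕ := fun x => if h : x < b then (t (hex x h).choose).f x else 0
  have hg : ∀ j x, x < (t j).ht → g x = (t j).f x := by
    intro j x hx
    have hxb : x < b := hx.trans_le (hb j)
    simp only [g, hxb, dif_pos]
    exact hagree _ _ x (hex x hxb).choose_spec hx
  have hav : ∀ j x, x < b → g x ∉ F j := by
    intro j x hx
    obtain ⟨i, hi⟩ := hex x hx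
    have h5 : x < (t (max i j)).ht := hi.trans_le (hmono _ _ (le_max_left _ _))
    rw [hg _ x h5]
    exact fun h => h3 _ x h5 (hF.monotone (le_max_right _ _) h)
  refine ⟨⟨b, g, fun x hx => dif_neg (not_lt.2 hx), ?_, ?_⟩, fun j => ⟨⟨?_, fun x hx => ?_⟩, hav j⟩⟩
  · intro x hx y hy e
    obtain ⟨i, hi⟩ := hex x hx
    obtain ⟨j, hj⟩ := hex y hy
    have h5 : x < (t (max i j)).ht := hi.trans_le (hmono _ _ (le_max_left _ _))
    have h6 : y < (t (max i j)).ht := hj.trans_le (hmono _ _ (le_max_right _ _))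
    rw [hg _ x h5, hg _ y h6] at e
    exact (t _).inj h5 h6 e
  · intro hfin
    have h5 : ∀ j, F j ⊆ hfin.toFinset := by
      intro j n hn
      rw [hfin.mem_toFinset]
      rintro ⟨x, hx, rfl⟩
      exact hav j x hx hn
    have h6 : ∀ j, j ≤ (F j).card := fun j =>
      (Finset.card_strictMono.comp hF).id_le j
    have := (h6 (hfin.toFinset.card + 1)).trans (Finset.card_le_card (h5 _))
    omega
  · obtain ⟨i, hi, h⟩ := h4 j
    exact (hmono j i hi).trans_lt (h.1.trans_le (hb _))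
  · exact (hg j x hx).symm

end Node

end Pool.Agent.P.MP_31a5ad_lc
end

-- part Pool.Agent.P.MP_31a5ad_lc.Basic
section

set_option autoImplicit false

/-! Names for the ordinals below the first uncountable one and for the tree. -/

open Pool.Agent.Lib.PosetForcing

namespace Pool.Agent.P.MP_31a5ad_lc

variable {P : Type} [Preorder P]

instance clopen_onto (f a b : Name P) :
    Clopen fun U : Gen P => Onto Mod.mem (f.val U) (a.val U) (b.val U) := by
  unfold Onto; infer_instance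

instance clopen_ctble (w a : Name P) :
    Clopen fun U : Gen P => Ctble Mod.mem (w.val U) (a.val U) := by
  unfold Ctble; infer_instance

instance clopen_below (Q le σ x q : Name P) :
    Clopen fun U : Gen P =>
      Below Mod.mem (Q.val U) (le.val U) (σ.val U) (x.val U) (q.val U) := by
  unfold Below; infer_instance

instance clopen_forcesIn (Q le σ x q : Name P) :
    Clopen fun U : Gen P =>
      ForcesIn Mod.mem (Q.val U) (le.val U) (σ.val U) (x.val U) (q.val U) := by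
  unfold ForcesIn; infer_instance

instance clopen_forcesOut (Q le σ x q : Name P) :
    Clopen fun U : Gen P =>
      ForcesOut Mod.mem (Q.val U) (le.val U) (σ.val U) (x.val U) (q.val U) := by
  unfold ForcesOut; infer_instance

instance clopen_isForcing (Q le : Name P) :
    Clopen fun U : Gen P => IsForcing Mod.mem (Q.val U) (le.val U) := by
  unfold IsForcing; infer_instance

instance clopen_noNewReals (w Q le : Name P) :
    Clopen fun U : Gen P => NoNewReals Mod.mem (w.val U) (Q.val U) (le.val U) := by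
  unfold NoNewReals; infer_instance

instance clopen_specialises (w T lt Q le φ : Name P) :
    Clopen fun U : Gen P => Specialises Mod.mem (w.val U) (T.val U) (lt.val U) (Q.val U)
      (le.val U) (φ.val U) := by
  unfold Specialises
  refine @clopen_and _ _ _ _ ?_ (@clopen_and _ _ _ _ ?_ ?_)
  · infer_instance
  · infer_instance
  · infer_instance

theorem mod_asymm {U : Gen P} (x y : Mod U) (h : Mod.mem y x) : ¬ Mod.mem x y :=
  Mod.induction (fun _ x => ∀ y, Mod.mem y x → ¬ Mod.mem x y) U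
    (fun x ih y h1 h2 => ih y h1 x h2 h1) x y h

variable [OrderTop P]

theorem forall_app_top {ι : Type} {X Y : ι → Name P} {Φ : ∀ U : Gen P, Mod U → Mod U → Prop}
    [∀ a b : Name P, Clopen fun U => Φ U (a.val U) (b.val U)]
    (h : ∀ i U, Φ U ((X i).val U) ((Y i).val U)) (U : Gen P) :
    ∀ x y, App Mod.mem ((funName X Y).val U) x y → Φ U x y :=
  of_forces_all (Φ := fun U => ∀ x y, App Mod.mem ((funName X Y).val U) x y → Φ U x y)
    (fun p => ⟨p, le_rfl, forces_forall_app_graph fun i q _ _ =>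
      ⟨q, le_rfl, Forces.of_forall (h i) q⟩⟩) U

theorem isFun_funName {ι : Type} {X Y : ι → Name P} {b : Name P}
    (h1 : ∀ i U, Mod.mem ((Y i).val U) (b.val U))
    (h2 : ∀ i j U, (X i).val U = (X j).val U → (Y i).val U = (Y j).val U) (U : Gen P) :
    IsFun Mod.mem ((funName X Y).val U) ((fam X).val U) (b.val U) := by
  refine of_forces_all (Φ := fun U : Gen P => IsFun Mod.mem
    ((funName X Y).val U) ((fam X).val U) (b.val U)) (fun p => ⟨p, le_rfl, ?_⟩) U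
  exact forces_isFunOn_graph (V := fun U y => Mod.mem y (b.val U))
    (fun i q _ _ => ⟨q, le_rfl, Forces.of_forall (fun U => ⟨mem_fam X i U, h1 i U⟩) q⟩)
    (fun j q _ _ => ⟨q, le_rfl, j, le_top, Forces.of_forall (fun _ => rfl) q⟩)
    fun i j q _ _ _ h => ⟨q, le_rfl, h.imp (h2 i j)⟩

theorem decide_app {ι : Type} {A : ι → Name P} {f a x : Name P} {q : P}
    (h : Forces q fun U => IsFun Mod.mem (f.val U) (a.val U) ((fam A).val U))
    (hx : Forces q fun U => Mod.mem (x.val U) (a.val U)) :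
    ∃ q' ≤ q, ∃ i, Forces q' fun U => App Mod.mem (f.val U) (x.val U) ((A i).val U) := by
  obtain ⟨y, hy⟩ := Forces.exists_name (Φ := fun U y => App Mod.mem (f.val U) (x.val U) y)
    ((h.and hx).imp fun U h => h.1.2.1 _ h.2)
  obtain ⟨r, hr, i, hi⟩ :=
    ((h.and hy).imp fun U h => ((isZFC U).app_val h.1 h.2).2).exists_fam
  exact ⟨r, hr, i, ((hy.mono hr).and hi).imp fun U h => h.2 ▸ h.1⟩

/-- names for countable ordinals -/
noncomputable def oN (x : W) : Name P := wfName (r := (· < ·)) wellFounded_lt x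

/-- the name of the first uncountable ordinal -/
noncomputable def oneN : Name P := fam oN

theorem oN_eq (x : W) : (oN x : Name P) = fam fun y : {y // y < x} => oN y.1 :=
  wfName_eq _ x

theorem oN_mem_iff {x y : W} {U : Gen P} : Mod.mem ((oN x).val U) ((oN y).val U) ↔ x < y := by
  refine ⟨fun h => ?_, fun h => wfName_mem wellFounded_lt h U⟩
  rcases lt_trichotomy x y with e | rfl | e
  · exact e
  · exact absurd h (Mod.not_mem_self _)
  · exact absurd (wfName_mem wellFounded_lt e U) (mod_asymm _ _ h)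

theorem oN_inj {x y : W} {U : Gen P} (h : (oN x).val U = (oN y).val U) : x = y := by
  rcases lt_trichotomy x y with e | e | e
  · have := (oN_mem_iff (U := U)).2 e
    rw [h] at this
    exact absurd this (Mod.not_mem_self _)
  · exact e
  · have := (oN_mem_iff (U := U)).2 e
    rw [h] at this
    exact absurd this (Mod.not_mem_self _)

theorem oN_mem (x : W) (U : Gen P) : Mod.mem ((oN x).val U) (oneN.val U) := mem_fam oN x U

theorem forall_mem_oN {x : W} {Φ : ∀ U : Gen P, Mod U → Prop}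
    [∀ a : Name P, Clopen fun U => Φ U (a.val U)] (h : ∀ y < x, ∀ U, Φ U ((oN y).val U))
    (U : Gen P) : ∀ z, Mod.mem z ((oN x).val U) → Φ U z := by
  rw [oN_eq]
  exact forall_mem_fam (fun y U => h y.1 y.2 U) U

theorem one_trans (U : Gen P) :
    ∀ x y, Mod.mem x (oneN.val U) → Mod.mem y x → Mod.mem y (oneN.val U) := fun x y hx =>
  forall_mem_fam (Φ := fun U x => ∀ y, Mod.mem y x → Mod.mem y (oneN.val U))
    (fun _ U => forall_mem_oN (Φ := fun U y => Mod.mem y (oneN.val U))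
      (fun y _ U => oN_mem y U) U) U x hx y

theorem one_lin (U : Gen P) : ∀ x y, Mod.mem x (oneN.val U) → Mod.mem y (oneN.val U) →
    Mod.mem x y ∨ x = y ∨ Mod.mem y x := fun x y hx =>
  forall_mem_fam
    (Φ := fun U x => ∀ y, Mod.mem y (oneN.val U) → Mod.mem x y ∨ x = y ∨ Mod.mem y x)
    (fun a U => forall_mem_fam
      (Φ := fun U y => Mod.mem ((oN a).val U) y ∨ (oN a).val U = y ∨ Mod.mem y ((oN a).val U))
      (fun b U => by
        rcases lt_trichotomy a b with e | rfl | e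
        · exact Or.inl (oN_mem_iff.2 e)
        · exact Or.inr (Or.inl rfl)
        · exact Or.inr (Or.inr (oN_mem_iff.2 e))) U) U x hx y

theorem one_ctble (U : Gen P) :
    ∀ x, Mod.mem x (oneN.val U) → Ctble Mod.mem (omegaName.val U) x := by
  refine forall_mem_fam (Φ := fun U x => Ctble Mod.mem (omegaName.val U) x) (fun a U => ?_) U
  rcases (Set.Iio a).eq_empty_or_nonempty with h | h
  · exact Or.inl (forall_mem_oN (Φ := fun _ _ => False)
      (fun y hy _ => (Set.eq_empty_iff_forall_notMem.1 h y hy)) U)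
  · obtain ⟨g, hg⟩ := (W.countable_Iio a).exists_eq_range h
    refine Or.inr ⟨(funName (fun n : ULift.{0} ℕ => natName n.down) fun n => oN (g n.down)).val U,
      isFun_funName (fun n U => oN_mem_iff.2 ?_) (fun i j U e => by rw [natName_inj e]) U, ?_⟩
    · have : g n.down ∈ Set.Iio a := hg ▸ Set.mem_range_self _
      exact this
    · refine forall_mem_oN (Φ := (fun (U : Gen P) (y : Mod U) => ∃ x, App Mod.mem
        ((funName (fun n : ULift.{0} ℕ => natName n.down) fun n => oN (g n.down)).val U) x y :))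
        (fun y hy U => ?_) U
      obtain ⟨n, rfl⟩ : y ∈ Set.range g := hg ▸ hy
      exact ⟨_, app_funName (fun n : ULift.{0} ℕ => natName n.down) (fun n => oN (g n.down)) ⟨n⟩ U⟩

/-- the name of the tree order -/
noncomputable def ltN : Name P :=
  funName (ι := {x : Node × Node // Node.Lt x.1 x.2}) (fun x => elt x.1.1) fun x => elt x.1.2

/-- the name of the height function -/
noncomputable def htN : Name P := funName (fun t : Node => elt t) fun t => oN t.ht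

theorem app_ltN {s t : Node} {U : Gen P} :
    App Mod.mem (ltN.val U) ((elt s).val U) ((elt t).val U) ↔ Node.Lt s t := by
  refine ⟨fun h => ?_, fun h => app_funName (ι := {x : Node × Node // Node.Lt x.1 x.2})
    (fun x => elt x.1.1) (fun x => elt x.1.2) ⟨(s, t), h⟩ U⟩
  refine forall_app_top (Φ := (fun (U : Gen P) (x y : Mod U) =>
    x = (elt s).val U → y = (elt t).val U → Node.Lt s t :)) (fun i U e e' => ?_) U _ _ h rfl rfl
  rw [← elt_inj e, ← elt_inj e']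
  exact i.2

theorem app_htN {t : Node} {U : Gen P} {b : Mod U} :
    App Mod.mem (htN.val U) ((elt t).val U) b ↔ b = (oN t.ht).val U := by
  refine ⟨fun h => ?_, fun h => h ▸ app_funName (fun t : Node => elt t) (fun t => oN t.ht) t U⟩
  refine forall_app_top (Φ := (fun (U : Gen P) (x y : Mod U) =>
    x = (elt t).val U → y = (oN t.ht).val U :)) (fun i U e => ?_) U _ _ h rfl
  rw [elt_inj e]

theorem forall_node {Φ : ∀ U : Gen P, Mod U → Prop}
    [∀ a : Name P, Clopen fun U => Φ U (a.val U)] (h : ∀ t : Node, ∀ U, Φ U ((elt t).val U))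
    (U : Gen P) : ∀ z, Mod.mem z ((tyName Node).val U) → Φ U z :=
  forall_mem_fam h U

theorem forall_node₂ {Φ : ∀ U : Gen P, Mod U → Mod U → Prop}
    [∀ a b : Name P, Clopen fun U => Φ U (a.val U) (b.val U)]
    (h : ∀ s t : Node, ∀ U, Φ U ((elt s).val U) ((elt t).val U))
    (U : Gen P) : ∀ y, Mod.mem y ((tyName Node).val U) →
      ∀ z, Mod.mem z ((tyName Node).val U) → Φ U y z :=
  forall_node (Φ := (fun (U : Gen P) (y : Mod U) =>
    ∀ z, Mod.mem z ((tyName Node).val U) → Φ U y z :))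
    (fun s U => forall_node (Φ := fun U z => Φ U ((elt s).val U) z) (h s) U) U

theorem forall_node₃ {Φ : ∀ U : Gen P, Mod U → Mod U → Mod U → Prop}
    [∀ a b c : Name P, Clopen fun U => Φ U (a.val U) (b.val U) (c.val U)]
    (h : ∀ s t u : Node, ∀ U, Φ U ((elt s).val U) ((elt t).val U) ((elt u).val U))
    (U : Gen P) : ∀ x, Mod.mem x ((tyName Node).val U) → ∀ y, Mod.mem y ((tyName Node).val U) →
      ∀ z, Mod.mem z ((tyName Node).val U) → Φ U x y z :=
  forall_node (Φ := (fun (U : Gen P) (x : Mod U) => ∀ y, Mod.mem y ((tyName Node).val U) →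
    ∀ z, Mod.mem z ((tyName Node).val U) → Φ U x y z :))
    (fun s U => forall_node₂ (Φ := fun U y z => Φ U ((elt s).val U) y z) (h s) U) U

theorem isTree (U : Gen P) :
    IsTree Mod.mem ((tyName Node).val U) (ltN.val U) (htN.val U) (oneN.val U) := by
  refine ⟨?_, fun s t u hs ht hu => ?_, fun s t u hs ht hu => ?_, ⟨?_, ?_⟩,
    fun s t a b hs ht => ?_, fun t b a ht => ?_⟩
  · exact forall_node (Φ := (fun (U : Gen P) (t : Mod U) => ¬ App Mod.mem (ltN.val U) t t :))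
      (fun t U h => lt_irrefl _ (app_ltN.1 h).1) U
  · exact forall_node₃ (Φ := (fun (U : Gen P) (s t u : Mod U) => App Mod.mem (ltN.val U) s t →
      App Mod.mem (ltN.val U) t u → App Mod.mem (ltN.val U) s u :))
      (fun s t u U h h' => app_ltN.2 ((app_ltN.1 h).trans (app_ltN.1 h'))) U s hs t ht u hu
  · refine forall_node₃ (Φ := (fun (U : Gen P) (s t u : Mod U) => App Mod.mem (ltN.val U) s u →
      App Mod.mem (ltN.val U) t u →
      App Mod.mem (ltN.val U) s t ∨ s = t ∨ App Mod.mem (ltN.val U) t s :))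
      (fun s t u U h h' => ?_) U s hs t ht u hu
    rcases Node.tri (app_ltN.1 h) (app_ltN.1 h') with e | rfl | e
    · exact Or.inl (app_ltN.2 e)
    · exact Or.inr (Or.inl rfl)
    · exact Or.inr (Or.inr (app_ltN.2 e))
  · exact isFun_funName (fun t U => oN_mem _ U) (fun i j U e => by rw [elt_inj e]) U
  · refine forall_mem_fam (Φ := (fun (U : Gen P) (y : Mod U) =>
      ∃ x, App Mod.mem (htN.val U) x y :)) (fun a U => ?_) U
    obtain ⟨t, rfl⟩ := Node.exists_ht a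
    exact ⟨_, app_htN.2 rfl⟩
  · refine forall_node₂ (Φ := (fun (U : Gen P) (s t : Mod U) => ∀ a b,
      App Mod.mem (ltN.val U) s t → App Mod.mem (htN.val U) s a → App Mod.mem (htN.val U) t b →
      Mod.mem a b :)) (fun s t U a b h h1 h2 => ?_) U s hs t ht a b
    rw [app_htN.1 h1, app_htN.1 h2]
    exact oN_mem_iff.2 (app_ltN.1 h).1
  · refine forall_node (Φ := (fun (U : Gen P) (t : Mod U) => ∀ b a,
      App Mod.mem (htN.val U) t b → Mod.mem a b → ∃ s, Mod.mem s ((tyName Node).val U) ∧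
        App Mod.mem (ltN.val U) s t ∧ App Mod.mem (htN.val U) s a :))
      (fun t U b a h h' => ?_) U t ht b a
    rw [app_htN.1 h] at h'
    refine forall_mem_oN (Φ := (fun (U : Gen P) (a : Mod U) =>
      ∃ s, Mod.mem s ((tyName Node).val U) ∧
        App Mod.mem (ltN.val U) s ((elt t).val U) ∧ App Mod.mem (htN.val U) s a :))
      (fun y hy U => ?_) U a h'
    obtain ⟨s, hs, rfl⟩ := t.exists_restr hy
    exact ⟨_, elt_mem_tyName s U, app_ltN.2 hs, app_htN.2 rfl⟩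

end Pool.Agent.P.MP_31a5ad_lc
end

-- part Pool.Agent.P.MP_31a5ad_lc.Posets
section

set_option autoImplicit false

/-! The collapse poset, the Cohen poset, and Easton type lemmas for their product. -/

namespace Pool.Agent.P.MP_31a5ad_lc

open Set

/-- countable functional subsets of `W × Node` -/
structure Col : Type where
  /-- the graph -/
  s : Set (W × Node)
  cnt : s.Countable
  fn : ∀ x a b, (x, a) ∈ s → (x, b) ∈ s → a = b

namespace Col

instance : Preorder Col where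
  le p q := q.s ⊆ p.s
  le_refl _ := subset_rfl
  le_trans _ _ _ h h' := h'.trans h

instance : OrderTop Col where
  top := ⟨∅, countable_empty, fun _ _ _ h => h.elim⟩
  le_top _ := empty_subset _

theorem closed (p : ℕ → Col) (h : ∀ n, p (n + 1) ≤ p n) : ∃ q, ∀ i, q ≤ p i := by
  have h1 : Antitone p := antitone_nat_of_succ_le h
  refine ⟨⟨⋃ i, (p i).s, countable_iUnion fun i => (p i).cnt, ?_⟩,
    fun i => subset_iUnion (fun i => (p i).s) i⟩
  intro x a b ha hb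
  obtain ⟨i, hi⟩ := mem_iUnion.1 ha
  obtain ⟨j, hj⟩ := mem_iUnion.1 hb
  exact (p (max i j)).fn x a b (h1 (le_max_left _ _) hi) (h1 (le_max_right _ _) hj)

theorem exists_in (p : Col) (t : Node) : ∃ q ≤ p, ∃ x, (x, t) ∈ q.s := by
  obtain ⟨x, hx⟩ := W.exists_notMem (p.cnt.image Prod.fst)
  refine ⟨⟨insert (x, t) p.s, p.cnt.insert _, ?_⟩, subset_insert _ _, x, mem_insert _ _⟩
  rintro y a b (ha | ha) (hb | hb)
  · exact (Prod.ext_iff.1 ha).2.trans (Prod.ext_iff.1 hb).2.symm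
  · exact absurd ⟨_, hb, (Prod.ext_iff.1 ha).1⟩ hx
  · exact absurd ⟨_, ha, (Prod.ext_iff.1 hb).1⟩ hx
  · exact p.fn y a b ha hb

theorem exists_freeze (p : Col) (a : W) : ∃ q ≤ p, ∀ x < a, ∃ t, (x, t) ∈ q.s := by
  obtain ⟨t, -⟩ := Node.exists_ht a
  refine ⟨⟨p.s ∪ (fun x => (x, t)) '' {x | x < a ∧ ∀ u, (x, u) ∉ p.s},
    p.cnt.union (((W.countable_Iio a).mono fun x hx => hx.1).image _), ?_⟩,
    subset_union_left, fun x hx => ?_⟩
  · rintro y b c (hb | ⟨z, hz, hb⟩) (hc | ⟨z', hz', hc⟩)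
    · exact p.fn y b c hb hc
    · obtain ⟨rfl, rfl⟩ := Prod.ext_iff.1 hc
      exact absurd hb (hz'.2 b)
    · obtain ⟨rfl, rfl⟩ := Prod.ext_iff.1 hb
      exact absurd hc (hz.2 c)
    · exact (Prod.ext_iff.1 hb).2.symm.trans (Prod.ext_iff.1 hc).2
  · by_cases h : ∃ u, (x, u) ∈ p.s
    · obtain ⟨u, hu⟩ := h
      exact ⟨u, Or.inl hu⟩
    · exact ⟨t, Or.inr ⟨x, ⟨hx, fun u hu => h ⟨u, hu⟩⟩, rfl⟩⟩

end Col

/-- finite two-valued functions with domain inside `I` -/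
@[ext]
structure Coh (I : Type) : Type where
  /-- the graph -/
  s : Set (I × Bool)
  fin : s.Finite
  fn : ∀ x a b, (x, a) ∈ s → (x, b) ∈ s → a = b

namespace Coh

variable {I : Type}

instance : Preorder (Coh I) where
  le p q := q.s ⊆ p.s
  le_refl _ := subset_rfl
  le_trans _ _ _ h h' := h'.trans h

instance : OrderTop (Coh I) where
  top := ⟨∅, finite_empty, fun _ _ _ h => h.elim⟩
  le_top _ := empty_subset _

/-- the support lies in `S` -/
def In (c : Coh I) (S : Set I) : Prop := ∀ z ∈ c.s, z.1 ∈ S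

theorem countable_in {S : Set I} (hS : S.Countable) : {c : Coh I | c.In S}.Countable := by
  have h1 : (S ×ˢ (univ : Set Bool)).Countable := hS.prod countable_univ
  refine (countable_ofPred_finite_subset h1).preimage_of_injOn (f := fun c : Coh I => c.s)
    (fun a _ b _ h => Coh.ext h) |>.mono ?_
  intro c hc
  exact ⟨c.fin, fun z hz => ⟨hc z hz, trivial⟩⟩

/-- restriction to `S` -/
def restr (c : Coh I) (S : Set I) : Coh I :=
  ⟨{z | z ∈ c.s ∧ z.1 ∈ S}, c.fin.subset fun _ h => h.1, fun x a b h h' => c.fn x a b h.1 h'.1⟩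

theorem restr_in (c : Coh I) (S : Set I) : (c.restr S).In S := fun _ h => h.2

theorem restr_le {c c₀ : Coh I} {S : Set I} (h : c ≤ c₀) (h' : c₀.In S) : c.restr S ≤ c₀ :=
  fun z hz => ⟨h hz, h' z hz⟩

theorem exists_common {c c' : Coh I} {S : Set I} (h : c' ≤ c.restr S) (h' : c'.In S) :
    ∃ d, d ≤ c ∧ d ≤ c' := by
  refine ⟨⟨c.s ∪ c'.s, c.fin.union c'.fin, ?_⟩, subset_union_left, subset_union_right⟩
  rintro x a b (ha | ha) (hb | hb)
  · exact c.fn x a b ha hb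
  · exact c'.fn x a b (h ⟨ha, h' (x, b) hb⟩) hb
  · exact c'.fn x a b ha (h ⟨hb, h' (x, a) ha⟩)
  · exact c'.fn x a b ha hb

theorem exists_split (c : Coh (I × ℕ)) {i j : I} (h : i ≠ j) :
    ∃ d ≤ c, ∃ n, ((i, n), true) ∈ d.s ∧ ((j, n), false) ∈ d.s := by
  obtain ⟨n, hn⟩ := (c.fin.image fun z => z.1.2).exists_notMem
  refine ⟨⟨insert ((i, n), true) (insert ((j, n), false) c.s), (c.fin.insert _).insert _, ?_⟩,
    (subset_insert _ _).trans (subset_insert _ _), n, mem_insert _ _,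
    mem_insert_of_mem _ (mem_insert _ _)⟩
  rintro x a b (ha | ha | ha) (hb | hb | hb)
  all_goals first
    | exact c.fn x a b ha hb
    | (simp only [Prod.mk.injEq] at ha hb; obtain ⟨rfl, rfl⟩ := ha; simp_all; done)
    | (simp only [Prod.mk.injEq] at ha; obtain ⟨rfl, rfl⟩ := ha; exact absurd ⟨_, hb, rfl⟩ hn)
    | (simp only [Prod.mk.injEq] at hb; obtain ⟨rfl, rfl⟩ := hb; exact absurd ⟨_, ha, rfl⟩ hn)

end Coh

variable {I : Type}

theorem col_forall {K : Type} [Countable K] (p : Col) (R : K → Col → Prop)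
    (hR : ∀ n q r, r ≤ q → R n q → R n r) (h : ∀ n, ∀ q ≤ p, ∃ r ≤ q, R n r) :
    ∃ q ≤ p, ∀ n, R n q := by
  rcases isEmpty_or_nonempty K with hK | hK
  · exact ⟨p, le_rfl, fun n => isEmptyElim n⟩
  obtain ⟨e, he⟩ := exists_surjective_nat K
  obtain ⟨q, hq, h1⟩ := Pool.Agent.Lib.PosetForcing.exists_le_forall Col.closed p
    (fun n => R (e n)) (fun n => hR _) (fun n => h _)
  refine ⟨q, hq, fun k => ?_⟩
  obtain ⟨n, rfl⟩ := he k
  exact h1 n

/-- Easton type closure lemma -/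
theorem easton {K : Type} [Countable K] (p₁ : Col) (c₀ : Coh I) (Ψ : K → Col → Coh I → Prop)
    (hmono : ∀ k p p' c, p' ≤ p → Ψ k p c → Ψ k p' c)
    (hd : ∀ k, ∀ p ≤ p₁, ∀ c ≤ c₀, ∃ p' ≤ p, ∃ c' ≤ c, Ψ k p' c') :
    ∃ p ≤ p₁, ∃ S : Set I, S.Countable ∧ c₀.In S ∧
      ∀ k, ∀ c ≤ c₀, c.In S → ∃ c' ≤ c, c'.In S ∧ Ψ k p c' := by
  have step : ∀ x : {x : Col × Set I // x.1 ≤ p₁ ∧ x.2.Countable},
      ∃ y : {x : Col × Set I // x.1 ≤ p₁ ∧ x.2.Countable}, y.1.1 ≤ x.1.1 ∧ x.1.2 ⊆ y.1.2 ∧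
        ∀ k, ∀ c ≤ c₀, c.In x.1.2 → ∃ c' ≤ c, c'.In y.1.2 ∧ Ψ k y.1.1 c' := by
    rintro ⟨⟨p, S⟩, hp, hS⟩
    have : Countable {c : Coh I // c ≤ c₀ ∧ c.In S} :=
      ((Coh.countable_in hS).mono fun c (hc : c ≤ c₀ ∧ c.In S) => hc.2).to_subtype
    obtain ⟨q, hq, h1⟩ := col_forall (K := K × {c : Coh I // c ≤ c₀ ∧ c.In S}) p
      (fun x q => ∃ c' ≤ x.2.1, Ψ x.1 q c')
      (fun x q r hr ⟨c', h1, h2⟩ => ⟨c', h1, hmono _ _ _ _ hr h2⟩)
      (fun x q hq => hd x.1 q (hq.trans hp) x.2.1 x.2.2.1)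
    choose g hg hg' using h1
    refine ⟨⟨(q, S ∪ ⋃ x, Prod.fst '' (g x).s), hq.trans hp,
      hS.union (countable_iUnion fun x => ((g x).fin.image _).countable)⟩, hq, subset_union_left,
      fun k c hc hc' => ⟨g (k, ⟨c, hc, hc'⟩), hg _, fun z hz => Or.inr ?_, hg' (k, ⟨c, hc, hc'⟩)⟩⟩
    exact mem_iUnion.2 ⟨_, z, hz, rfl⟩
  choose g hg1 hg2 hg3 using step
  let x : ℕ → {x : Col × Set I // x.1 ≤ p₁ ∧ x.2.Countable} := fun n =>
    g^[n] ⟨(p₁, Prod.fst '' c₀.s), le_rfl, (c₀.fin.image _).countable⟩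
  have hx : ∀ n, x (n + 1) = g (x n) := fun n => Function.iterate_succ_apply' _ _ _
  obtain ⟨q, hq⟩ := Col.closed (fun n => (x n).1.1) fun n => by rw [hx]; exact hg1 _
  have hm : Monotone fun n => (x n).1.2 :=
    monotone_nat_of_le_succ fun n => by rw [hx]; exact hg2 _
  refine ⟨q, hq 0, ⋃ n, (x n).1.2, countable_iUnion fun n => (x n).2.2,
    fun z hz => mem_iUnion.2 ⟨0, z, hz, rfl⟩, fun k c hc hc' => ?_⟩
  have h1 : ∀ z ∈ c.s, ∃ n, z.1 ∈ (x n).1.2 := fun z hz => mem_iUnion.1 (hc' z hz)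
  choose! N hN using h1
  obtain ⟨n, hn⟩ := (c.fin.image N).bddAbove
  obtain ⟨c', h2, h3, h4⟩ := hg3 (x n) k c hc fun z hz => hm (hn ⟨z, hz, rfl⟩) (hN z hz)
  rw [← hx] at h3 h4
  exact ⟨c', h2, fun z hz => mem_iUnion.2 ⟨_, h3 z hz⟩, hmono _ _ _ _ (hq _) h4⟩

/-- below a suitable condition, countably many names take only countably many values -/
theorem few {K X : Type} [Countable K] (q₀ : Col × Coh I) (G : K → X → Col × Coh I → Prop)
    (hmono : ∀ k x q q', q' ≤ q → G k x q → G k x q')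
    (huniq : ∀ k x x' q, G k x q → G k x' q → x = x') :
    ∃ p ≤ q₀.1, ∃ Y : Set X, Y.Countable ∧ ∀ k x q, q ≤ (p, q₀.2) → G k x q → x ∈ Y := by
  obtain ⟨p, hp, S, hS, hc₀, h⟩ := easton q₀.1 q₀.2
    (fun k p c => (∃ x, G k x (p, c)) ∨ ∀ x q, q ≤ (p, c) → ¬ G k x q)
    (by
      rintro k p p' c hp (⟨x, hx⟩ | h)
      · exact Or.inl ⟨x, hmono _ _ (p, c) _ ⟨hp, le_rfl⟩ hx⟩
      · exact Or.inr fun x q hq => h x q (hq.trans ⟨hp, le_rfl⟩))
    (by
      intro k p _ c _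
      by_cases h : ∃ x q, q ≤ (p, c) ∧ G k x q
      · obtain ⟨x, q, hq, hx⟩ := h
        exact ⟨q.1, hq.1, q.2, hq.2, Or.inl ⟨x, hx⟩⟩
      · exact ⟨p, le_rfl, c, le_rfl, Or.inr fun x q hq hx => h ⟨x, q, hq, hx⟩⟩)
  refine ⟨p, hp, ⋃ k, ⋃ c ∈ {c : Coh I | c.In S}, {x | G k x (p, c)}, ?_, fun k x q hq hx => ?_⟩
  · refine countable_iUnion fun k => (Coh.countable_in hS).biUnion fun c _ => ?_
    exact Subsingleton.countable fun a ha b hb => huniq _ _ _ _ ha hb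
  · obtain ⟨c', h1, h2, h3⟩ := h k (q.2.restr S) (Coh.restr_le hq.2 hc₀) (Coh.restr_in _ _)
    obtain ⟨d, hd, hd'⟩ := Coh.exists_common h1 h2
    have h4 : G k x (q.1, d) := hmono _ _ q _ ⟨le_rfl, hd⟩ hx
    rcases h3 with ⟨y, hy⟩ | h3
    · obtain rfl := huniq _ _ _ _ h4 (hmono _ _ (p, c') _ ⟨hq.1, hd'⟩ hy)
      exact mem_iUnion.2 ⟨k, mem_biUnion h2 hy⟩
    · exact absurd h4 (h3 x _ ⟨hq.1, hd'⟩)

end Pool.Agent.P.MP_31a5ad_lc
end

-- part Pool.Agent.P.MP_31a5ad_lc.Core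
section

set_option autoImplicit false

/-! The combinatorial core: no two step iteration whose second step adds no reals specialises the
tree. -/

namespace Pool.Agent.P.MP_31a5ad_lc

open Set

/-- a projection of `R` onto the product poset whose quotient adds no reals -/
structure Proj {I R : Type} [Preorder R] (π : R → Col × Coh I) : Prop where
  mono : ∀ r s, s ≤ r → π s ≤ π r
  proj : ∀ r p, p ≤ π r → ∃ s ≤ r, π s ≤ p
  dist : ∀ E : ℕ → R → Prop, (∀ n r s, s ≤ r → E n r → E n s) → ∀ r, ∃ r' ≤ r, ∀ n, ∀ p ≤ π r',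
    ∃ p' ≤ p, (∀ s ≤ r', π s ≤ p' → ∃ s' ≤ s, E n s') ∨ (∀ s ≤ r', π s ≤ p' → ¬ E n s)

variable {I R : Type} [Preorder R] {π : R → Col × Coh I}

theorem Proj.decide (H : Proj π) {K X : Type} [Countable K] (code : X → ℕ → Bool)
    (hcode : Function.Injective code) (E : K → X → R → Prop)
    (hlow : ∀ k x r s, s ≤ r → E k x r → E k x s)
    (huniq : ∀ k x x' r, E k x r → E k x' r → x = x') (r : R)
    (hd : ∀ k, ∀ s ≤ r, ∃ s' ≤ s, ∃ x, E k x s') :
    ∃ r' ≤ r, ∀ k, ∀ p ≤ π r', ∃ p' ≤ p, ∃ x, ∀ s ≤ r', π s ≤ p' → ∃ s' ≤ s, E k x s' := by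
  rcases isEmpty_or_nonempty K with hK | hK
  · exact ⟨r, le_rfl, fun k => isEmptyElim k⟩
  obtain ⟨e, he⟩ := exists_surjective_nat (K × ℕ)
  obtain ⟨r', hr', h⟩ := H.dist (fun n s => ∃ x, E (e n).1 x s ∧ code x (e n).2 = true)
    (fun n r s hs ⟨x, h1, h2⟩ => ⟨x, hlow _ _ _ _ hs h1, h2⟩) r
  refine ⟨r', hr', fun k p hp => ?_⟩
  obtain ⟨s₀, hs₀, hs₀'⟩ := H.proj r' p hp
  obtain ⟨s₁, hs₁, x, hx⟩ := hd k s₀ (hs₀.trans hr')
  refine ⟨π s₁, (H.mono _ _ hs₁).trans hs₀', x, fun s hs hs' => ?_⟩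
  obtain ⟨s', h1, x', hx'⟩ := hd k s (hs.trans hr')
  refine ⟨s', h1, ?_⟩
  suffices e : x = x' from e ▸ hx'
  refine hcode (funext fun j => ?_)
  obtain ⟨n, hn⟩ := he (k, j)
  obtain ⟨p'', h2, h3⟩ := h n (π s') (H.mono _ _ (h1.trans hs))
  obtain ⟨s₂, h4, h5⟩ := H.proj s₁ p'' (h2.trans ((H.mono _ _ h1).trans hs'))
  obtain ⟨s₃, h6, h7⟩ := H.proj s' p'' h2
  simp only [hn] at h3
  rcases h3 with h3 | h3
  · obtain ⟨a, ha, y, hy, hy'⟩ := h3 s₂ (h4.trans (hs₁.trans hs₀)) h5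
    obtain ⟨b, hb, z, hz, hz'⟩ := h3 s₃ (h6.trans (h1.trans hs)) h7
    obtain rfl := huniq _ _ _ _ hy (hlow _ _ _ _ (ha.trans h4) hx)
    obtain rfl := huniq _ _ _ _ hz (hlow _ _ _ _ (hb.trans h6) hx')
    rw [hy', hz']
  · have a1 : ¬ code x j = true := fun h => h3 s₂ (h4.trans (hs₁.trans hs₀)) h5
      ⟨x, hlow _ _ _ _ h4 hx, h⟩
    have a2 : ¬ code x' j = true := fun h => h3 s₃ (h6.trans (h1.trans hs)) h7
      ⟨x', hlow _ _ _ _ h6 hx', h⟩
    simp only [Bool.not_eq_true] at a1 a2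
    rw [a1, a2]

theorem Proj.bound (H : Proj π) {K : Type} [Countable K] (E : K → W → R → Prop)
    (hlow : ∀ k x r s, s ≤ r → E k x r → E k x s)
    (huniq : ∀ k x x' r, E k x r → E k x' r → x = x') (r : R)
    (hd : ∀ k, ∀ s ≤ r, ∃ s' ≤ s, ∃ x, E k x s') :
    ∃ r' ≤ r, ∃ b, ∀ k x s, s ≤ r' → E k x s → x < b := by
  obtain ⟨code, hcode⟩ := W.exists_code
  obtain ⟨r', hr', h⟩ := H.decide code hcode E hlow huniq r hd
  obtain ⟨p, hp, Y, hY, hY'⟩ := few (π r')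
    (fun k x q => q ≤ π r' ∧ ∀ s ≤ r', π s ≤ q → ∃ s' ≤ s, E k x s')
    (fun k x q q' hq h => ⟨hq.trans h.1, fun s hs hs' => h.2 s hs (hs'.trans hq)⟩)
    (by
      intro k x x' q h1 h2
      obtain ⟨s, hs, hs'⟩ := H.proj r' q h1.1
      obtain ⟨a, ha, ha'⟩ := h1.2 s hs hs'
      obtain ⟨b, hb, hb'⟩ := h2.2 a (ha.trans hs) ((H.mono _ _ ha).trans hs')
      exact huniq _ _ _ _ (hlow _ _ _ _ hb ha') hb')
  obtain ⟨b, hb⟩ := W.exists_gt hY
  obtain ⟨r'', h1, h2⟩ := H.proj r' (p, (π r').2) ⟨hp, le_rfl⟩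
  refine ⟨r'', h1.trans hr', b, fun k x s hs hx => hb x ?_⟩
  obtain ⟨p', h3, x', h4⟩ := h k (π s) (H.mono _ _ (hs.trans h1))
  obtain ⟨s₂, h5, h6⟩ := H.proj s p' h3
  obtain ⟨s₃, h7, h8⟩ := h4 s₂ (h5.trans (hs.trans h1)) h6
  obtain rfl := huniq _ _ _ _ (hlow _ _ _ _ (h7.trans h5) hx) h8
  exact hY' k x p' (h3.trans ((H.mono _ _ hs).trans h2))
    ⟨h3.trans (H.mono _ _ (hs.trans h1)), h4⟩

/-- the least value version of a dense family -/
def Least {X : Type} [LT X] (J : X → R → Prop) (x : X) (r : R) : Prop :=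
  J x r ∧ ∀ y < x, ∀ s ≤ r, ¬ J y s

theorem Least.low {X : Type} [LT X] {J : X → R → Prop} (hlow : ∀ x r s, s ≤ r → J x r → J x s)
    {x : X} {r s : R} (hs : s ≤ r) (h : Least J x r) : Least J x s :=
  ⟨hlow _ _ _ hs h.1, fun y hy a ha => h.2 y hy a (ha.trans hs)⟩

theorem Least.uniq {X : Type} [LinearOrder X] {J : X → R → Prop} {x x' : X} {r : R}
    (h : Least J x r) (h' : Least J x' r) : x = x' := by
  rcases lt_trichotomy x x' with e | e | e
  · exact absurd h.1 (h'.2 x e r le_rfl)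
  · exact e
  · exact absurd h'.1 (h.2 x' e r le_rfl)

theorem Least.dense {X : Type} [LinearOrder X] [WellFoundedLT X] {J : X → R → Prop} {r : R}
    (h : ∃ s ≤ r, ∃ x, J x s) : ∃ s ≤ r, ∃ x, Least J x s := by
  obtain ⟨s, hs, x, hx⟩ := h
  obtain ⟨y, ⟨a, ha, hy⟩, hmin⟩ := wellFounded_lt.has_min {x | ∃ s ≤ r, J x s} ⟨x, s, hs, hx⟩
  exact ⟨a, ha, y, hy, fun z hz b hb h => hmin z ⟨b, hb.trans ha, h⟩ hz⟩

theorem Proj.bound' (H : Proj π) {K : Type} [Countable K] (J : K → W → R → Prop)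
    (hlow : ∀ k x r s, s ≤ r → J k x r → J k x s) (r : R)
    (hd : ∀ k, ∀ s ≤ r, ∃ s' ≤ s, ∃ x, J k x s') :
    ∃ r' ≤ r, ∃ b, ∀ k, ∀ s ≤ r', ∃ s' ≤ s, ∃ x < b, J k x s' := by
  obtain ⟨r', hr', b, h⟩ := H.bound (fun k => Least (J k)) (fun k x r s => Least.low (hlow k))
    (fun k x x' r => Least.uniq) r fun k s hs => Least.dense (hd k s hs)
  refine ⟨r', hr', b, fun k s hs => ?_⟩
  obtain ⟨s', h1, x, hx⟩ := Least.dense (hd k s (hs.trans hr'))
  exact ⟨s', h1, x, h k x s' (h1.trans hs) hx, hx.1⟩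

theorem Proj.decide' (H : Proj π) {K : Type} [Countable K] (J : K → ℕ → R → Prop)
    (hlow : ∀ k x r s, s ≤ r → J k x r → J k x s) (r : R)
    (hd : ∀ k, ∀ s ≤ r, ∃ s' ≤ s, ∃ x, J k x s') :
    ∃ r' ≤ r, ∀ k, ∀ p ≤ π r', ∃ p' ≤ p, ∃ x, ∀ s ≤ r', π s ≤ p' → ∃ s' ≤ s, J k x s' := by
  obtain ⟨r', hr', h⟩ := H.decide (fun x n => Decidable.decide (x = n))
    (fun a b h => by simpa [eq_comm] using (congrFun h a).symm) (fun k => Least (J k))
    (fun k x r s => Least.low (hlow k)) (fun k x x' r => Least.uniq) r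
    fun k s hs => Least.dense (hd k s hs)
  refine ⟨r', hr', fun k p hp => ?_⟩
  obtain ⟨p', h1, x, h2⟩ := h k p hp
  refine ⟨p', h1, x, fun s hs hs' => ?_⟩
  obtain ⟨s', h3, h4⟩ := h2 s hs hs'
  exact ⟨s', h3, h4.1⟩

section close

variable {T : Type} [Countable T] (V : R → Node → T → Node → Prop)

/-- witnesses for tasks of index below `b` can be found with index below `c` -/
def Cl (π : R → Col × Coh I) (b c : W) (r : R) : Prop :=
  ∀ x < b, ∀ τ, ∀ s ≤ r, ∀ t, (x, t) ∈ (π s).1.s → (∃ u, V s t τ u) →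
    ∃ s' ≤ s, ∃ y < c, ∃ u, (y, u) ∈ (π s').1.s ∧ V s' t τ u

omit [Countable T] in
theorem Cl.low {b c : W} {r s : R} (hs : s ≤ r) (h : Cl V π b c r) : Cl V π b c s :=
  fun x hx τ a ha => h x hx τ a (ha.trans hs)

variable {V}

theorem Proj.exists_in (H : Proj π) (r : R) (t : Node) : ∃ s ≤ r, ∃ x, (x, t) ∈ (π s).1.s := by
  obtain ⟨q, hq, x, hx⟩ := (π r).1.exists_in t
  obtain ⟨s, hs, hs'⟩ := H.proj r (q, (π r).2) ⟨hq, le_rfl⟩
  exact ⟨s, hs, x, hs'.1 hx⟩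

theorem Proj.cl_dense (H : Proj π) (hV : ∀ r s t τ u, s ≤ r → V r t τ u → V s t τ u) (b : W)
    (r : R) : ∃ s ≤ r, ∃ c, Cl V π b c s := by
  have := (W.countable_Iio b).to_subtype
  obtain ⟨r', hr', c, h⟩ := H.bound' (K := Iio b × T)
    (fun k y s => (∃ t, (k.1.1, t) ∈ (π s).1.s ∧ ∃ u, (y, u) ∈ (π s).1.s ∧ V s t k.2 u) ∨
      ∀ s' ≤ s, ∀ t, (k.1.1, t) ∈ (π s').1.s → ¬ ∃ u, V s' t k.2 u)
    (by
      rintro k x r s hs (⟨t, h1, u, h2, h3⟩ | h)
      · exact Or.inl ⟨t, (H.mono _ _ hs).1 h1, u, (H.mono _ _ hs).1 h2, hV _ _ _ _ _ hs h3⟩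
      · exact Or.inr fun s' hs' => h s' (hs'.trans hs)) r
    (by
      intro k s _
      by_cases h : ∃ s' ≤ s, ∃ t, (k.1.1, t) ∈ (π s').1.s ∧ ∃ u, V s' t k.2 u
      · obtain ⟨s', hs', t, h1, u, h2⟩ := h
        obtain ⟨a, ha, y, hy⟩ := H.exists_in s' u
        exact ⟨a, ha.trans hs', y, Or.inl ⟨t, (H.mono _ _ ha).1 h1, u, hy, hV _ _ _ _ _ ha h2⟩⟩
      · exact ⟨s, le_rfl, b, Or.inr fun s' hs' t h1 h2 => h ⟨s', hs', t, h1, h2⟩⟩)
  refine ⟨r', hr', c, fun x hx τ s hs t h1 ⟨u, h2⟩ => ?_⟩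
  obtain ⟨s', h3, y, hy, ⟨t', h4, u', h5, h6⟩ | h4⟩ := h (⟨x, hx⟩, τ) s hs
  · obtain rfl := (π s').1.fn _ _ _ h4 ((H.mono _ _ h3).1 h1)
    exact ⟨s', h3, y, hy, u', h5, h6⟩
  · exact absurd ⟨u, hV _ _ _ _ _ h3 h2⟩ (h4 s' le_rfl t ((H.mono _ _ h3).1 h1))

theorem Proj.exists_closed (H : Proj π) (hV : ∀ r s t τ u, s ≤ r → V r t τ u → V s t τ u) (r : R)
    (x₀ : W) : ∃ s ≤ r, ∃ a, x₀ ≤ a ∧ Cl V π a a s := by
  let E : ℕ → W → R → Prop := fun n => Nat.rec (fun x _ => x = x₀)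
    (fun _ ih c s => ∃ b, ih b s ∧ Least (fun c s => Cl V π b c s) c s) n
  have hlow : ∀ n x r s, s ≤ r → E n x r → E n x s := by
    intro n
    induction n with
    | zero => exact fun x r s _ h => h
    | succ n ih =>
      rintro x r s hs ⟨b, h1, h2⟩
      exact ⟨b, ih _ _ _ hs h1, Least.low (J := fun c s => Cl V π b c s) (fun _ _ _ h h' => Cl.low V h h') hs h2⟩
  have huniq : ∀ n x x' r, E n x r → E n x' r → x = x' := by
    intro n
    induction n with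
    | zero => exact fun x x' r h h' => Eq.trans h (Eq.symm h')
    | succ n ih =>
      rintro x x' r ⟨b, h1, h2⟩ ⟨b', h3, h4⟩
      obtain rfl := ih _ _ _ h1 h3
      exact h2.uniq h4
  have hd : ∀ n s, ∃ s' ≤ s, ∃ x, E n x s' := by
    intro n
    induction n with
    | zero => exact fun s => ⟨s, le_rfl, x₀, rfl⟩
    | succ n ih =>
      intro s
      obtain ⟨a, ha, b, hb⟩ := ih s
      obtain ⟨a', ha', c, hc⟩ := Least.dense (J := fun c s => Cl V π b c s) (H.cl_dense hV b a)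
      exact ⟨a', ha'.trans ha, c, b, hlow _ _ _ _ ha' hb, hc⟩
  obtain ⟨r₁, hr₁, b, hb⟩ := H.bound E hlow huniq r fun n s _ => hd n s
  obtain ⟨a, ⟨r₂, hr₂, ha⟩, hmin⟩ := wellFounded_lt.has_min
    {a | ∃ r₂ ≤ r₁, ∀ n x s, s ≤ r₂ → E n x s → x ≤ a}
    ⟨b, r₁, le_rfl, fun n x s hs h => (hb n x s hs h).le⟩
  refine ⟨r₂, hr₂.trans hr₁, a, ha 0 x₀ r₂ le_rfl rfl, fun x hx τ s hs t h1 ⟨u, h2⟩ => ?_⟩
  have h3 : ∃ n y s', s' ≤ s ∧ E n y s' ∧ x < y := by
    by_contra h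
    push Not at h
    exact hmin x ⟨s, hs.trans hr₂, h⟩ hx
  obtain ⟨n, y, s', h3, h4, h5⟩ := h3
  obtain ⟨s'', h6, c, y', h7, h8⟩ := hd (n + 1) s'
  have h9 : c ≤ a := ha (n + 1) c s'' (h6.trans (h3.trans hs)) ⟨y', h7, h8⟩
  obtain rfl := huniq _ _ _ _ h7 (hlow _ _ _ _ h6 h4)
  obtain ⟨s₃, g1, z, g2, g3⟩ := h8.1 x h5 τ s'' le_rfl t ((H.mono _ _ (h6.trans h3)).1 h1)
    ⟨u, hV _ _ _ _ _ (h6.trans h3) h2⟩
  exact ⟨s₃, g1.trans (h6.trans h3), z, g2.trans_le h9, g3⟩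

theorem Proj.exists_countable_closed (H : Proj π)
    (hV : ∀ r s t τ u, s ≤ r → V r t τ u → V s t τ u) (r : R) :
    ∃ r' ≤ r, ∃ A : Set Node, A.Countable ∧ A.Nonempty ∧
      ∀ t ∈ A, ∀ τ, ∀ s ≤ r', (∃ u, V s t τ u) → ∃ s' ≤ s, ∃ u ∈ A, V s' t τ u := by
  obtain ⟨w, -⟩ := W.exists_gt countable_empty
  obtain ⟨t₀, -⟩ := Node.exists_ht w
  obtain ⟨r₀, hr₀, x₀, hx₀⟩ := H.exists_in r t₀
  obtain ⟨x₁, hx₁⟩ := W.exists_succ x₀
  obtain ⟨r₂, hr₂, a, ha, hcl⟩ := H.exists_closed hV r₀ x₁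
  obtain ⟨q, hq, hq'⟩ := (π r₂).1.exists_freeze a
  obtain ⟨r₃, hr₃, hr₃'⟩ := H.proj r₂ (q, (π r₂).2) ⟨hq, le_rfl⟩
  refine ⟨r₃, hr₃.trans (hr₂.trans hr₀), {t | ∃ x < a, (x, t) ∈ (π r₃).1.s},
    ((π r₃).1.cnt.image Prod.snd).mono (by rintro t ⟨x, -, h⟩; exact ⟨_, h, rfl⟩),
    ⟨t₀, x₀, ((hx₁ _).2 le_rfl).trans_le ha, (H.mono _ _ (hr₃.trans hr₂)).1 hx₀⟩, ?_⟩
  rintro t ⟨x, hx, ht⟩ τ s hs h
  obtain ⟨s', h1, y, hy, u, h2, h3⟩ := hcl x hx τ s (hs.trans hr₃) t ((H.mono _ _ hs).1 ht) h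
  obtain ⟨u', hu'⟩ := hq' y hy
  obtain rfl := (π s').1.fn _ _ _ h2 ((H.mono _ _ (h1.trans hs)).1 (hr₃'.1 hu'))
  exact ⟨s', h1, u, ⟨y, hy, hr₃'.1 hu'⟩, h3⟩

end close

theorem Proj.not_special (H : Proj π) (r : R) (F : Node → ℕ → R → Prop)
    (hlow : ∀ t m r s, s ≤ r → F t m r → F t m s) (htot : ∀ t r, ∃ s ≤ r, ∃ m, F t m s)
    (hsp : ∀ s t m r, Node.Lt s t → F s m r → ¬ F t m r) : False := by
  classical
  let V : R → Node → Finset ℕ × Option ℕ → Node → Prop := fun s t τ u =>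
    Node.Lt t u ∧ u.Avoid τ.1 ∧ ∀ m, τ.2 = some m → F u m s
  have hV : ∀ r s t τ u, s ≤ r → V r t τ u → V s t τ u := fun r s t τ u hs h =>
    ⟨h.1, h.2.1, fun m hm => hlow _ _ _ _ hs (h.2.2 m hm)⟩
  obtain ⟨r₃, -, A, hA, hne, hcl⟩ := H.exists_countable_closed hV r
  obtain ⟨a, rfl⟩ := hA.exists_eq_range hne
  obtain ⟨r₄, hr₄, hdec⟩ := H.decide' (K := ℕ × Finset ℕ × Option ℕ)
    (fun k x s => (x = 0 ∧ ∀ s' ≤ s, ¬ ∃ u, V s' (a k.1) k.2 u) ∨
      ∃ y, x = y + 1 ∧ V s (a k.1) k.2 (a y))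
    (by
      rintro k x r s hs (⟨h1, h2⟩ | ⟨y, h1, h2⟩)
      · exact Or.inl ⟨h1, fun s' hs' => h2 s' (hs'.trans hs)⟩
      · exact Or.inr ⟨y, h1, hV _ _ _ _ _ hs h2⟩) r₃
    (by
      intro k s hs
      by_cases h : ∃ s' ≤ s, ∃ u, V s' (a k.1) k.2 u
      · obtain ⟨s', hs', h⟩ := h
        obtain ⟨s'', h1, _, ⟨y, rfl⟩, h2⟩ := hcl _ ⟨k.1, rfl⟩ k.2 s' (hs'.trans hs) h
        exact ⟨s'', h1.trans hs', y + 1, Or.inr ⟨y, rfl, h2⟩⟩
      · exact ⟨s, le_rfl, 0, Or.inl ⟨rfl, fun s' hs' h' => h ⟨s', hs', h'⟩⟩⟩)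
  obtain ⟨p, hp, S, hS, hc₀, hE⟩ := easton (K := ℕ × Finset ℕ × Option ℕ) (π r₄).1 (π r₄).2
    (fun k p c => (∀ s ≤ r₄, π s ≤ (p, c) → ¬ ∃ u, V s (a k.1) k.2 u) ∨
      ∃ y, ∀ s ≤ r₄, π s ≤ (p, c) → ∃ s' ≤ s, V s' (a k.1) k.2 (a y))
    (by
      rintro k p p' c hp (h | ⟨y, h⟩)
      · exact Or.inl fun s hs hs' => h s hs (hs'.trans ⟨hp, le_rfl⟩)
      · exact Or.inr ⟨y, fun s hs hs' => h s hs (hs'.trans ⟨hp, le_rfl⟩)⟩)
    (by
      intro k p hp c hc
      obtain ⟨p', h1, x, h2⟩ := hdec k (p, c) ⟨hp, hc⟩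
      refine ⟨p'.1, h1.1, p'.2, h1.2, ?_⟩
      rcases x with _ | y
      · refine Or.inl fun s hs hs' ⟨u, hu⟩ => ?_
        obtain ⟨s', h3, ⟨-, h4⟩ | ⟨y, h4, -⟩⟩ := h2 s hs hs'
        · exact h4 s' le_rfl ⟨u, hV _ _ _ _ _ h3 hu⟩
        · omega
      · refine Or.inr ⟨y, fun s hs hs' => ?_⟩
        obtain ⟨s', h3, ⟨h4, -⟩ | ⟨y', h4, h5⟩⟩ := h2 s hs hs'
        · omega
        · obtain rfl : y = y' := by omega
          exact ⟨s', h3, h5⟩)
  have : Countable {c : Coh I // c ≤ (π r₄).2 ∧ c.In S} :=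
    ((Coh.countable_in hS).mono fun c (hc : c ≤ (π r₄).2 ∧ c.In S) => hc.2).to_subtype
  have : Nonempty {c : Coh I // c ≤ (π r₄).2 ∧ c.In S} := ⟨⟨_, le_rfl, hc₀⟩⟩
  obtain ⟨ν, hν⟩ := exists_surjective_nat ({c : Coh I // c ≤ (π r₄).2 ∧ c.In S} × Option ℕ)
  have step : ∀ (j : ℕ) (x : {x : ℕ × Finset ℕ // (a x.1).Avoid x.2}),
      ∃ y : {x : ℕ × Finset ℕ // (a x.1).Avoid x.2},
        (a x.1.1 = a y.1.1 ∨ Node.Lt (a x.1.1) (a y.1.1)) ∧ x.1.2 ⊂ y.1.2 ∧
        ∃ c' ≤ (ν j.unpair.1).1.1, c'.In S ∧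
          ((∀ s ≤ r₄, π s ≤ (p, c') → ¬ ∃ u, V s (a x.1.1) (x.1.2, (ν j.unpair.1).2) u) ∨
          (Node.Lt (a x.1.1) (a y.1.1) ∧ ∀ s ≤ r₄, π s ≤ (p, c') →
            ∃ s' ≤ s, V s' (a x.1.1) (x.1.2, (ν j.unpair.1).2) (a y.1.1))) := by
    rintro j ⟨⟨i, G⟩, hG⟩
    obtain ⟨c', h1, h2, h3⟩ := hE (i, G, (ν j.unpair.1).2) _ (ν j.unpair.1).1.2.1
      (ν j.unpair.1).1.2.2
    have key : ∀ y, (a y).Avoid G → ∃ G', G ⊂ G' ∧ (a y).Avoid G' := by
      intro y hy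
      obtain ⟨n, hn, hn'⟩ := (a y).exists_fresh G
      refine ⟨insert n G, Finset.ssubset_insert hn, fun x hx h => ?_⟩
      rcases Finset.mem_insert.1 h with h | h
      · exact hn' x hx h
      · exact hy x hx h
    rcases h3 with h3 | ⟨y, h3⟩
    · obtain ⟨G', h4, h5⟩ := key i hG
      exact ⟨⟨(i, G'), h5⟩, Or.inl rfl, h4, c', h1, h2, Or.inl h3⟩
    · obtain ⟨s, hs, hs'⟩ := H.proj r₄ (p, c') ⟨hp, h1.trans (ν j.unpair.1).1.2.1⟩
      obtain ⟨s', -, h6⟩ := h3 s hs hs'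
      obtain ⟨G', h4, h5⟩ := key y h6.2.1
      exact ⟨⟨(y, G'), h5⟩, Or.inr h6.1, h4, c', h1, h2, Or.inr ⟨h6.1, h3⟩⟩
  choose g hg1 hg2 hg3 using step
  let x : ℕ → {x : ℕ × Finset ℕ // (a x.1).Avoid x.2} := fun n =>
    Nat.rec ⟨(0, ∅), fun _ _ => Finset.notMem_empty _⟩ g n
  have hx : ∀ n, x (n + 1) = g n (x n) := fun n => rfl
  obtain ⟨u, hu⟩ := Node.exists_limit (fun j => a (x j).1.1) (fun j => (x j).1.2)
    (fun j => hg1 j (x j)) (fun j => hg2 j (x j)) (fun j => (x j).2) (by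
      intro j
      obtain ⟨n, hn⟩ := hν (⟨_, le_rfl, hc₀⟩, none)
      refine ⟨Nat.pair n j, Nat.right_le_pair _ _, ?_⟩
      obtain ⟨c', h1, -, h3 | h3⟩ := hg3 (Nat.pair n j) (x (Nat.pair n j))
      · simp only [Nat.unpair_pair, hn] at h1 h3
        obtain ⟨s, hs, hs'⟩ := H.proj r₄ (p, c') ⟨hp, h1⟩
        obtain ⟨v, hv, hv'⟩ := Node.exists_ext (x (Nat.pair n j)).2
        exact absurd ⟨v, hv, hv', fun m hm => by simp at hm⟩ (h3 s hs hs')
      · exact h3.1)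
  obtain ⟨s₀, hs₀, hs₀'⟩ := H.proj r₄ (p, (π r₄).2) ⟨hp, le_rfl⟩
  obtain ⟨s₁, hs₁, m, hm⟩ := htot u s₀
  have h0 : π s₁ ≤ (p, (π r₄).2) := (H.mono _ _ hs₁).trans hs₀'
  obtain ⟨n, hn⟩ := hν (⟨(π s₁).2.restr S, Coh.restr_le h0.2 hc₀, Coh.restr_in _ _⟩, some m)
  obtain ⟨c', h1, h2, h3⟩ := hg3 (Nat.pair n 0) (x (Nat.pair n 0))
  simp only [Nat.unpair_pair, hn] at h1 h3
  obtain ⟨d, hd, hd'⟩ := Coh.exists_common h1 h2
  obtain ⟨s₂, hs₂, hs₂'⟩ := H.proj s₁ ((π s₁).1, d) ⟨le_rfl, hd⟩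
  have h4 : π s₂ ≤ (p, c') := hs₂'.trans ⟨h0.1, hd'⟩
  have h5 : s₂ ≤ r₄ := hs₂.trans (hs₁.trans hs₀)
  rcases h3 with h3 | ⟨-, h3⟩
  · refine h3 s₂ h5 h4 ⟨u, (hu _).1, (hu _).2, fun m' hm' => ?_⟩
    obtain rfl : m = m' := by simpa using hm'
    exact hlow _ _ _ _ hs₂ hm
  · obtain ⟨s₃, h6, h7⟩ := h3 s₂ h5 h4
    exact hsp _ _ m s₃ (hu (Nat.pair n 0 + 1)).1 (h7.2.2 m rfl) (hlow _ _ _ _ (h6.trans hs₂) hm)

end Pool.Agent.P.MP_31a5ad_lc
end

-- part Pool.Agent.P.MP_31a5ad_lc.Main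
section

set_option autoImplicit false

/-! The extension by the product of the collapse and the Cohen poset. -/

open Pool.Agent.Lib.PosetForcing

namespace Pool.Agent.P.MP_31a5ad_lc

theorem refute {P : Type} [Preorder P] {Φ : Gen P → Prop} [Clopen Φ] (h : ∀ q, ¬ Forces q Φ)
    (U : Gen P) : ¬ Φ U := fun hU => by
  obtain ⟨p, hp⟩ := Ultrafilter.nonempty_of_mem (truth hU)
  exact h p hp

variable {I : Type}

theorem one_not_ctble (U : Gen (Col × Coh I)) :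
    ¬ Ctble Mod.mem (omegaName.val U) (oneN.val U) := by
  rintro (h | ⟨f, hf⟩)
  · obtain ⟨x, -⟩ := W.exists_notMem Set.countable_empty
    exact h _ (oN_mem x U)
  obtain ⟨f, rfl⟩ := f.exists_name
  refine refute (Φ := fun U => Onto Mod.mem (f.val U) (omegaName.val U) (oneN.val U))
    (fun q hq => ?_) U hf
  obtain ⟨p, hp, Y, hY, h⟩ := few (K := ℕ) (X := W) q
    (fun n x r => r ≤ q ∧ Forces r fun U => App Mod.mem (f.val U) ((natName n).val U) ((oN x).val U))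
    (fun n x r r' hr h => ⟨hr.trans h.1, h.2.mono hr⟩)
    (by
      intro n x x' r h h'
      obtain ⟨U, hU⟩ := ((hq.mono h.1).and (h.2.and h'.2)).exists
      exact oN_inj (hU.1.1.2.2 _ _ _ hU.2.1 hU.2.2))
  obtain ⟨x, hx⟩ := W.exists_notMem hY
  have hle : (p, q.2) ≤ q := ⟨hp, le_rfl⟩
  obtain ⟨a, ha⟩ := Forces.exists_name (Φ := fun U a => App Mod.mem (f.val U) a ((oN x).val U))
    ((hq.mono hle).imp fun U h => h.2 _ (oN_mem x U))
  obtain ⟨r, hr, n, hn⟩ := Forces.exists_fam (A := fun n : ULift.{0} ℕ => natName n.down)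
    (((hq.mono hle).and ha).imp fun U h => ((isZFC U).app_val h.1.1 h.2).1)
  exact hx (h n.down x r hr ⟨hr.trans hle, ((ha.mono hr).and hn).imp fun U h => h.2 ▸ h.1⟩)

theorem isOmegaOne (U : Gen (Col × Coh I)) :
    IsOmegaOne Mod.mem (omegaName.val U) (oneN.val U) :=
  ⟨one_trans U, one_lin U, one_not_ctble U, one_ctble U⟩

theorem noBranch (U : Gen (Col × Coh I)) :
    NoBranch Mod.mem ((tyName Node).val U) (ltN.val U) (oneN.val U) := by
  rintro ⟨b, hb⟩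
  obtain ⟨b, rfl⟩ := b.exists_name
  refine refute (Φ := fun U => IsFun Mod.mem (b.val U) (oneN.val U) ((tyName Node).val U) ∧
    ∀ x y s t, Mod.mem x y → App Mod.mem (b.val U) x s → App Mod.mem (b.val U) y t →
      App Mod.mem (ltN.val U) s t) (fun q hq => ?_) U hb
  let B : W → Node → Col × Coh I → Prop := fun x t r =>
    Forces r fun U => App Mod.mem (b.val U) ((oN x).val U) ((elt t).val U)
  have hlt : ∀ x y s t r, r ≤ q → x < y → B x s r → B y t r → Node.Lt s t := by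
    intro x y s t r hr hxy h h'
    obtain ⟨U, hU⟩ := ((hq.mono hr).and (h.and h')).exists
    exact app_ltN.1 (hU.1.2 _ _ _ _ (oN_mem_iff.2 hxy) hU.2.1 hU.2.2)
  have heq : ∀ x s t r, r ≤ q → B x s r → B x t r → s = t := by
    intro x s t r hr h h'
    obtain ⟨U, hU⟩ := ((hq.mono hr).and (h.and h')).exists
    exact elt_inj (hU.1.1.2.2 _ _ _ hU.2.1 hU.2.2)
  let G : ℕ → W → Col × Coh I → Prop := fun n x r =>
    r ≤ q ∧ ∃ y t t', x < y ∧ B x t r ∧ B y t' r ∧ t'.f t.ht = n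
  have hG : ∀ n x x' r, x < x' → G n x r → ¬ G n x' r := by
    rintro n x x' r hx ⟨hr, y, t, t', h1, h2, h3, h4⟩ ⟨-, y', u, u', g1, g2, g3, g4⟩
    have a1 := hlt _ _ _ _ _ hr hx h2 g2
    have a2 := hlt _ _ _ _ _ hr h1 h2 h3
    have a3 := hlt _ _ _ _ _ hr g1 g2 g3
    have a4 : u'.f t.ht = t'.f t.ht := by
      rcases lt_trichotomy y y' with e | rfl | e
      · exact ((hlt _ _ _ _ _ hr e h3 g3).2 _ a2.1).symm
      · rw [heq _ _ _ _ hr h3 g3]
      · exact (hlt _ _ _ _ _ hr e g3 h3).2 _ (a1.1.trans a3.1)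
    exact a1.1.ne (u'.inj (a1.1.trans a3.1) a3.1 (by rw [a4, h4, g4]))
  obtain ⟨p, hp, Y, hY, h⟩ := few (K := ℕ) (X := W) q G
    (fun n x r r' hr ⟨h0, y, t, t', h1, h2, h3, h4⟩ =>
      ⟨hr.trans h0, y, t, t', h1, h2.mono hr, h3.mono hr, h4⟩)
    (by
      intro n x x' r h h'
      rcases lt_trichotomy x x' with e | e | e
      · exact absurd h' (hG _ _ _ _ e h)
      · exact e
      · exact absurd h (hG _ _ _ _ e h'))
  obtain ⟨x, hx⟩ := W.exists_notMem hY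
  obtain ⟨y, hy⟩ := W.exists_gt (Set.countable_singleton x)
  have hle : (p, q.2) ≤ q := ⟨hp, le_rfl⟩
  obtain ⟨r, hr, t, ht⟩ := decide_app (A := fun t : Node => elt t)
    ((hq.mono hle).imp fun _ h => h.1) (Forces.of_forall (oN_mem x) _)
  obtain ⟨r', hr', t', ht'⟩ := decide_app (A := fun t : Node => elt t)
    ((hq.mono (hr.trans hle)).imp fun _ h => h.1) (Forces.of_forall (oN_mem y) _)
  exact hx (h _ x r' (hr'.trans hr)
    ⟨hr'.trans (hr.trans hle), y, t, t', hy x rfl, ht.mono hr', ht', rfl⟩)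

/-- names for Cohen reals -/
def creal (i : I) : Name (Col × Coh (I × ℕ)) :=
  .mk {x : (Col × Coh (I × ℕ)) × ℕ // ((i, x.2), true) ∈ x.1.2.s} (fun x => natName x.1.2)
    fun x => x.1.1

theorem creal_mem (i : I) (U : Gen (Col × Coh (I × ℕ))) :
    Mod.mem ((creal i).val U) ((powName omegaName).val U) :=
  (mem_powName _ U _).2 (forall_mem (b := creal i) (Φ := fun U y => Mod.mem y (omegaName.val U))
    (fun _ q _ => ⟨q, le_rfl, Forces.of_forall (natName_mem_omega _) q⟩) U)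

theorem creal_inj {i j : I} {q : Col × Coh (I × ℕ)}
    (h : Forces q fun U => (creal i).val U = (creal j).val U) : i = j := by
  by_contra hij
  obtain ⟨d, hd, n, h1, h2⟩ := q.2.exists_split hij
  have hle : (q.1, d) ≤ q := ⟨le_rfl, hd⟩
  have h3 : Forces (q.1, d) fun U => Mod.mem ((natName n).val U) ((creal j).val U) :=
    ((h.mono hle).and (forces_el_mem (b := creal i) ⟨((q.1, d), n), h1⟩ le_rfl)).imp
      fun U h => h.1 ▸ h.2
  obtain ⟨r, hr, x, h4, h5⟩ := h3.exists_el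
  obtain rfl : n = x.1.2 := h5.natName_inj
  exact absurd (r.2.fn _ _ _ (h4.2 x.2) (hr.2 h2)) (by simp)

theorem not_onto (U : Gen (Col × Coh (Set (Col × Node × ℕ) × ℕ))) :
    ¬ ∃ f, Onto Mod.mem f ((tyName Node).val U) ((powName omegaName).val U) := by
  rintro ⟨f, hf⟩
  obtain ⟨f, rfl⟩ := f.exists_name
  refine refute (Φ := fun U => Onto Mod.mem (f.val U) ((tyName Node).val U)
    ((powName omegaName).val U)) (fun q hq => ?_) U hf
  have key := fun (p₁ : Col) (t : Node) => few (K := Unit) (X := Set (Col × Node × ℕ)) (p₁, q.2)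
    (fun _ i r => r ≤ q ∧ Forces r fun U => App Mod.mem (f.val U) ((elt t).val U) ((creal i).val U))
    (fun n x r r' hr h => ⟨hr.trans h.1, h.2.mono hr⟩)
    (fun n x x' r h h' => creal_inj (((hq.mono h.1).and (h.2.and h'.2)).imp
      fun U hU => hU.1.1.2.2 _ _ _ hU.2.1 hU.2.2))
  choose p hp Y hY h using key
  have h1 : ∀ p₁ t, ∃ g : ℕ → Set (Col × Node × ℕ), insert ∅ (Y p₁ t) = Set.range g :=
    fun p₁ t => ((hY p₁ t).insert ∅).exists_eq_range (Set.insert_nonempty _ _)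
  choose g hg using h1
  obtain ⟨i, hi⟩ := not_forall.1 (Function.cantor_surjective fun x => g x.1 x.2.1 x.2.2)
  obtain ⟨a, ha⟩ := Forces.exists_name (Φ := fun U a => App Mod.mem (f.val U) a ((creal i).val U))
    (hq.imp fun U h => h.2 _ (creal_mem i U))
  obtain ⟨r, hr, t, ht⟩ := Forces.exists_fam (A := fun t : Node => elt t)
    ((hq.and ha).imp fun U h => ((isZFC U).app_val h.1.1 h.2).1)
  have hle : (p r.1 t, r.2) ≤ r := ⟨hp r.1 t, le_rfl⟩
  have h2 := h r.1 t () i (p r.1 t, r.2) ⟨le_rfl, hr.2⟩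
    ⟨hle.trans hr, (((ha.mono hr).and ht).imp fun U h => h.2 ▸ h.1).mono hle⟩
  obtain ⟨n, hn⟩ : i ∈ Set.range (g r.1 t) := hg r.1 t ▸ Set.mem_insert_of_mem _ h2
  exact hi ⟨(r.1, t, n), hn⟩

section iteration

variable {P : Type} [Preorder P]

/-- conditions of the two step iteration -/
structure It (p₀ : P) (Q le : Name P)
    (h : Forces p₀ fun U => IsForcing Mod.mem (Q.val U) (le.val U)) : Type where
  /-- first coordinate -/
  p : P
  /-- second coordinate -/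
  i : Q.idx
  hp : p ≤ p₀
  hi : p ≤ Q.cond i

variable {p₀ : P} {Q le : Name P}
  {h : Forces p₀ fun U => IsForcing Mod.mem (Q.val U) (le.val U)}

theorem It.mem (r : It p₀ Q le h) {p : P} (hp : p ≤ r.p) :
    Forces p fun U => Mod.mem ((Q.el r.i).val U) (Q.val U) :=
  forces_el_mem r.i (hp.trans r.hi)

theorem It.refl (r : It p₀ Q le h) {p : P} (hp : p ≤ r.p) :
    Forces p fun U => App Mod.mem (le.val U) ((Q.el r.i).val U) ((Q.el r.i).val U) :=
  ((h.mono (hp.trans r.hp)).and (r.mem hp)).imp fun _ h => h.1.2.1 _ h.2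

instance : Preorder (It p₀ Q le h) where
  le r s := r.p ≤ s.p ∧
    Forces r.p fun U => App Mod.mem (le.val U) ((Q.el r.i).val U) ((Q.el s.i).val U)
  le_refl r := ⟨le_rfl, r.refl le_rfl⟩
  le_trans r s t h1 h2 := ⟨h1.1.trans h2.1, fun U hU => (h.mono r.hp U hU).2.2 _ _ _
    (r.mem le_rfl U hU) (s.mem h1.1 U hU) (t.mem (h1.1.trans h2.1) U hU) (h1.2 U hU)
    (h2.2.mono h1.1 U hU)⟩

theorem It.exists_le (r : It p₀ Q le h) {p : P} (hp : p ≤ r.p) {a : Name P}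
    (ha : Forces p fun U => Mod.mem (a.val U) (Q.val U) ∧
      App Mod.mem (le.val U) (a.val U) ((Q.el r.i).val U)) :
    ∃ s ≤ r, s.p ≤ p ∧ Forces s.p fun U => a.val U = (Q.el s.i).val U := by
  obtain ⟨q, hq, j, h1, h2⟩ := (ha.imp fun _ h => h.1).exists_el
  exact ⟨⟨q, j, hq.trans (hp.trans r.hp), h1⟩,
    ⟨hq.trans hp, ((ha.mono hq).and h2).imp fun U h => h.2 ▸ h.1.2⟩, hq, h2⟩

theorem It.lower (r : It p₀ Q le h) {p : P} (hp : p ≤ r.p) :
    ∃ s ≤ r, s.p = p ∧ s.i = r.i :=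
  ⟨⟨p, r.i, hp.trans r.hp, hp.trans r.hi⟩, ⟨hp, r.refl hp⟩, rfl, rfl⟩

end iteration

theorem proj_it {p₀ : Col × Coh I} {Q le : Name (Col × Coh I)}
    (h : Forces p₀ fun U => IsForcing Mod.mem (Q.val U) (le.val U))
    (h' : Forces p₀ fun U => NoNewReals Mod.mem (omegaName.val U) (Q.val U) (le.val U)) :
    Proj (It.p : It p₀ Q le h → Col × Coh I) := by
  refine ⟨fun r s hs => hs.1, fun r p hp => ?_, fun E hE r => ?_⟩
  · obtain ⟨s, hs, e, -⟩ := r.lower hp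
    exact ⟨s, hs, e.le⟩
  let σ : Name (Col × Coh I) := graphName (ι := {x : ℕ × It p₀ Q le h // E x.1 x.2})
    (fun x => natName x.1.1) (fun x => Q.el x.1.2.i) fun x => x.1.2.p
  obtain ⟨q', hq'⟩ := Forces.exists_name (p := r.p)
    (Φ := (fun (U : Gen (Col × Coh I)) (q' : Mod U) => ∃ a, Mod.mem q' (Q.val U) ∧
      App Mod.mem (le.val U) q' ((Q.el r.i).val U) ∧ ∀ n, Mod.mem n (omegaName.val U) →
        (Mod.mem n a → ForcesIn Mod.mem (Q.val U) (le.val U) (σ.val U) n q') ∧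
        (¬ Mod.mem n a → ForcesOut Mod.mem (Q.val U) (le.val U) (σ.val U) n q') :))
    (((h'.mono r.hp).and (r.mem le_rfl)).imp fun U h => h.1 _ _ h.2)
  obtain ⟨a, ha⟩ := Forces.exists_name (p := r.p)
    (Φ := (fun (U : Gen (Col × Coh I)) (a : Mod U) => Mod.mem (q'.val U) (Q.val U) ∧
      App Mod.mem (le.val U) (q'.val U) ((Q.el r.i).val U) ∧ ∀ n, Mod.mem n (omegaName.val U) →
        (Mod.mem n a → ForcesIn Mod.mem (Q.val U) (le.val U) (σ.val U) n (q'.val U)) ∧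
        (¬ Mod.mem n a → ForcesOut Mod.mem (Q.val U) (le.val U) (σ.val U) n (q'.val U)) :)) hq'
  obtain ⟨r', hr', h1, h2⟩ := r.exists_le le_rfl (ha.imp fun _ h => ⟨h.1, h.2.1⟩)
  refine ⟨r', hr', fun n p hp => ?_⟩
  have h3 := ((ha.mono h1).and h2).imp fun U h => h.2 ▸ h.1.2.2 _ (natName_mem_omega n U)
  by_cases hn : Forces p fun U => Mod.mem ((natName n).val U) (a.val U)
  · refine ⟨p, le_rfl, Or.inl fun s hs hs' => ?_⟩
    obtain ⟨b, hb⟩ := Forces.exists_name (p := s.p)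
      (Φ := (fun (U : Gen (Col × Coh I)) (b : Mod U) => Mod.mem b (Q.val U) ∧
        App Mod.mem (le.val U) b ((Q.el s.i).val U) ∧
        Below Mod.mem (Q.val U) (le.val U) (σ.val U) ((natName n).val U) b :))
      fun U hU => (h3.mono hs.1 U hU).1 (hn.mono hs' U hU) _ (s.mem le_rfl U hU) (hs.2 U hU)
    obtain ⟨c, hc⟩ := Forces.exists_name (p := s.p)
      (Φ := (fun (U : Gen (Col × Coh I)) (c : Mod U) => Mod.mem c (Q.val U) ∧
        App Mod.mem (σ.val U) ((natName n).val U) c ∧ App Mod.mem (le.val U) (b.val U) c :))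
      (hb.imp fun _ h => h.2.2)
    obtain ⟨s₁, hs₁, h4, h5⟩ := s.exists_le le_rfl (hb.imp fun _ h => ⟨h.1, h.2.1⟩)
    obtain ⟨p₃, h6, x, h7, h8⟩ := ((hc.mono h4).imp fun _ h => h.2.1).exists_app_graph
    obtain rfl : n = x.1.1 := (h8.imp fun _ h => h.1).natName_inj
    obtain ⟨s₂, h9, rfl, e⟩ := s₁.lower h6
    refine ⟨s₂, h9.trans hs₁, hE _ _ _ ⟨h7, fun U hU => ?_⟩ x.2⟩
    beta_reduce
    rw [e, ← h5.mono h6 U hU, ← (h8 U hU).2]
    exact (hc.mono (h6.trans h4) U hU).2.2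
  · obtain ⟨p', hp', hn'⟩ := exists_forces_not hn
    refine ⟨p', hp', Or.inr fun s hs hs' hE' => Forces.not_false (p := s.p) fun U hU => ?_⟩
    exact (h3.mono hs.1 U hU).2 (hn'.mono hs' U hU) _ (s.mem le_rfl U hU) (hs.2 U hU)
      ⟨_, s.mem le_rfl U hU, forces_app_graph (ι := {x : ℕ × It p₀ Q le h // E x.1 x.2})
        (X := fun x => natName x.1.1) (Y := fun x => Q.el x.1.2.i) (c := fun x => x.1.2.p)
        ⟨(n, s), hE'⟩ le_rfl U hU, s.refl le_rfl U hU⟩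

theorem not_specialisable (U : Gen (Col × Coh I)) :
    ¬ ∃ Q le φ, IsForcing Mod.mem Q le ∧ NoNewReals Mod.mem (omegaName.val U) Q le ∧
      Specialises Mod.mem (omegaName.val U) ((tyName Node).val U) (ltN.val U) Q le φ := by
  rintro ⟨Q, le, φ, hU⟩
  obtain ⟨Q, rfl⟩ := Q.exists_name
  obtain ⟨le, rfl⟩ := le.exists_name
  obtain ⟨φ, rfl⟩ := φ.exists_name
  refine refute (Φ := fun U => IsForcing Mod.mem (Q.val U) (le.val U) ∧
    NoNewReals Mod.mem (omegaName.val U) (Q.val U) (le.val U) ∧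
    Specialises Mod.mem (omegaName.val U) ((tyName Node).val U) (ltN.val U) (Q.val U) (le.val U)
      (φ.val U)) (fun p₀ hp₀ => ?_) U hU
  have h := hp₀.imp fun _ h => h.1
  have h2 := hp₀.imp fun _ h => h.2.2
  obtain ⟨a, ha⟩ := Forces.exists_name (Φ := fun U a => Mod.mem a (Q.val U))
    (h.imp fun _ h => h.1)
  obtain ⟨p₁, hp₁, i, hi, -⟩ := ha.exists_el
  refine (proj_it h (hp₀.imp fun _ h => h.2.1)).not_special ⟨p₁, i, hp₁, hi⟩
    (fun t m r => Forces r.p fun U => Below Mod.mem (Q.val U) (le.val U) (φ.val U)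
      ((pairName (elt t) (natName m)).val U) ((Q.el r.i).val U))
    (fun t m r s hs hr U hU => ?_) (fun t r => ?_) fun s t m r hst h3 h4 => ?_
  · obtain ⟨c, h3, h4, h5⟩ := hr.mono hs.1 U hU
    exact ⟨c, h3, h4, (h.mono s.hp U hU).2.2 _ _ _ (s.mem le_rfl U hU) (r.mem hs.1 U hU) h3
      (hs.2 U hU) h5⟩
  · obtain ⟨b, hb⟩ := Forces.exists_name (p := r.p)
      (Φ := (fun (U : Gen (Col × Coh I)) (b : Mod U) => ∃ n z, Mod.mem b (Q.val U) ∧
        App Mod.mem (le.val U) b ((Q.el r.i).val U) ∧ Mod.mem n (omegaName.val U) ∧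
        IsPair Mod.mem z ((elt t).val U) n ∧ Below Mod.mem (Q.val U) (le.val U) (φ.val U) z b :))
      fun U hU => (h2.mono r.hp U hU).1 _ _ (elt_mem_tyName t U) (r.mem le_rfl U hU)
    obtain ⟨n, hn⟩ := Forces.exists_name (p := r.p)
      (Φ := (fun (U : Gen (Col × Coh I)) (n : Mod U) => ∃ z, Mod.mem (b.val U) (Q.val U) ∧
        App Mod.mem (le.val U) (b.val U) ((Q.el r.i).val U) ∧ Mod.mem n (omegaName.val U) ∧
        IsPair Mod.mem z ((elt t).val U) n ∧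
        Below Mod.mem (Q.val U) (le.val U) (φ.val U) z (b.val U) :)) hb
    obtain ⟨s₁, hs₁, h4, h5⟩ := r.exists_le le_rfl (hn.imp fun _ ⟨_, h⟩ => ⟨h.1, h.2.1⟩)
    obtain ⟨p₃, h6, m, h7⟩ := Forces.exists_fam (A := fun n : ULift.{0} ℕ => natName n.down)
      ((hn.mono h4).imp fun _ ⟨_, h⟩ => h.2.2.1)
    obtain ⟨s₂, h9, rfl, e⟩ := s₁.lower h6
    refine ⟨s₂, h9.trans hs₁, m.down, fun U hU => ?_⟩
    obtain ⟨z, -, -, -, g1, g2⟩ := hn.mono (h6.trans h4) U hU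
    rw [h7 U hU] at g1
    rw [e, ← h5.mono h6 U hU, ← (isZFC U).pair_unique g1 (isPair_pairName _ _ U)]
    exact g2
  · refine Forces.not_false (p := r.p) fun U hU => ?_
    exact (h2.mono r.hp U hU).2.2 _ _ _ _ _ _ (elt_mem_tyName s U) (elt_mem_tyName t U)
      (app_ltN.2 hst) (r.mem le_rfl U hU) (isPair_pairName _ _ U) (isPair_pairName _ _ U)
      (h3 U hU) (h4 U hU)

theorem main : ∃ (M : Type 1) (mem : M → M → Prop), IsZFC mem ∧
    ∃ w o T lt h PW : M, IsOmega mem w ∧ IsOmegaOne mem w o ∧ IsTree mem T lt h o ∧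
      NoBranch mem T lt o ∧ (∀ x, mem x PW ↔ ∀ y, mem y x → mem y w) ∧
      (¬ ∃ f, Onto mem f T PW) ∧
      ¬ ∃ Q le φ, IsForcing mem Q le ∧ NoNewReals mem w Q le ∧ Specialises mem w T lt Q le φ := by
  obtain ⟨U, -⟩ := exists_gen (⊤ : Col × Coh (Set (Col × Node × ℕ) × ℕ))
  exact ⟨Mod U, Mod.mem, isZFC U, _, _, _, _, _, _, isOmega_omega U, isOmegaOne U, isTree U,
    noBranch U, mem_powName _ U, not_onto U, not_specialisable U⟩

end Pool.Agent.P.MP_31a5ad_lc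
end
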